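import Pool.Agent.Q330.RX.ET

set_option autoImplicit false

/-! # Exact triangles and real formulas: the bounds -/

namespace Pool.Agent.Q330.RX

open Finset Pool.Agent.TH697.Form Pool.Agent.TH697.Row Pool.Agent.TH697.Form.ET
open Pool.Agent.Y638.RF

variable {n c w : ℕ}

theorem arith {n b c w L l s N : ℝ} (hn : 1024 ≤ n) (hb : 10 ≤ b) (hc : 1 ≤ c) (hw : 1 ≤ w)
    (hN : n ^ 2 * b / 64 ≤ N) (hl : l ≤ 11 / 10 * b) (hL : L = c * l) (hs : 0 ≤ s)
    (h : n * ((49 / 600 - 1 / 32) * N - 8 * l) ≤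
      w * (3 + 12 * (8 * l) + 2 * (w - 1) * L) * s) :
    n ^ 3 ≤ 150000 * c * w ^ 2 * s := by
  have h0 : 1048576 ≤ n ^ 2 := by nlinarith
  have h00 : 1048576 * b ≤ n ^ 2 * b := mul_le_mul_of_nonneg_right h0 (by linarith)
  have h1 : n ^ 2 * b / 1300 ≤ (49 / 600 - 1 / 32) * N - 8 * l := by linarith
  have h2 : n * (n ^ 2 * b / 1300) ≤ n * ((49 / 600 - 1 / 32) * N - 8 * l) :=
    mul_le_mul_of_nonneg_left h1 (by linarith)
  have h3 : w * (3 + 12 * (8 * l) + 2 * (w - 1) * L) ≤ 106 * c * b * w ^ 2 := by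
    have h4 : (w - 1) * L ≤ (w - 1) * (11 / 10 * c * b) := by
      apply mul_le_mul_of_nonneg_left _ (by linarith)
      rw [hL]
      nlinarith
    have h5 : 3 + 12 * (8 * l) ≤ 106 * b := by linarith
    have h6 : b ≤ c * b := by nlinarith
    have h7 : 0 ≤ (w - 1) * (c * b) := by
      apply mul_nonneg (by linarith)
      positivity
    calc w * (3 + 12 * (8 * l) + 2 * (w - 1) * L) ≤ w * (106 * c * b * w) := by
          apply mul_le_mul_of_nonneg_left _ (by linarith)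
          nlinarith
      _ = _ := by ring
  have h4 := mul_le_mul_of_nonneg_right h3 hs
  have h5 : b * n ^ 3 ≤ b * (150000 * c * w ^ 2 * s) := by
    have e1 : n * (n ^ 2 * b / 1300) = b * n ^ 3 / 1300 := by ring
    have e2 : 106 * c * b * w ^ 2 * s = b * (137800 * c * w ^ 2 * s) / 1300 := by ring
    rw [e1] at h2
    rw [e2] at h4
    have h6 : 0 ≤ b * (c * w ^ 2 * s) := by positivity
    linarith
  exact le_of_mul_le_mul_left h5 (by linarith)

theorem program_bound (hn : 1024 ≤ n) (hc : 1 ≤ c) (hw : 1 ≤ w) {Ω : Type} [Fintype Ω] (μ : Ω → ℝ)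
    (hμ : IsProb μ) (s : ℕ) (F : Ω → Program (Option (Fin n)) (Item n) w (n ^ c) s)
    (hF : ApproximatesOn μ (fun ω => (F ω).eval) (InRange n n) (zeroTri n)) :
    (n : ℝ) ^ 3 ≤ 150000 * c * w ^ 2 * s := by
  classical
  have hw' : (1 : ℝ) ≤ w := by exact_mod_cast hw
  have hc' : (1 : ℝ) ≤ c := by exact_mod_cast hc
  have hs0 : (0 : ℝ) ≤ s := Nat.cast_nonneg s
  by_cases hsn : n ^ 3 ≤ s
  · have h1 : (n : ℝ) ^ 3 ≤ s := by exact_mod_cast hsn
    have h2 : (1 : ℝ) ≤ w ^ 2 := by nlinarith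
    have h3 : (1 : ℝ) ≤ c * w ^ 2 := by nlinarith
    nlinarith
  have hb10 : 10 ≤ Nat.log 2 n := by
    have := Nat.log_mono_right (b := 2) hn
    rwa [show Nat.log 2 1024 = 10 by decide +kernel] at this
  obtain ⟨a, ha⟩ : ∃ a, a + 5 = Nat.log 2 n := ⟨Nat.log 2 n - 5, by omega⟩
  obtain ⟨b, hb⟩ : ∃ b, b = Nat.log 2 n := ⟨_, rfl⟩
  rw [← hb] at ha hb10
  have hpow : 2 ^ b ≤ n := by
    rw [hb]
    exact Nat.pow_log_le_self 2 (by omega)
  have hpow2 : n < 2 ^ (b + 1) := by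
    have := Nat.lt_pow_succ_log_self (b := 2) (by norm_num) n
    rw [hb]
    exact this
  have hM : 4 * n ^ 4 * (2 * s + 1) + 2 + s ≤ n ^ 8 := by
    have h1 : s < n ^ 3 := by omega
    have h2 : 4 * n ^ 4 * (2 * s + 1) ≤ 4 * n ^ 4 * (2 * n ^ 3) := Nat.mul_le_mul_left _ (by omega)
    have h3 : 4 * n ^ 4 * (2 * n ^ 3) = 8 * n ^ 7 := by ring
    have h4 : n ^ 3 ≤ n ^ 7 := Nat.pow_le_pow_right (by omega) (by norm_num)
    have h5 : 16 * n ^ 7 ≤ n ^ 8 := by
      calc 16 * n ^ 7 ≤ n * n ^ 7 := Nat.mul_le_mul_right _ (by omega)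
        _ = n ^ 8 := by ring
    have h6 : 1 ≤ n ^ 7 := Nat.one_le_pow _ _ (by omega)
    omega
  have h := program_lower μ hμ s F (InRange n n) (zeroTri n) hF
    (Nat.one_le_pow _ _ (by omega)) hw (n ^ 4) (n ^ 8) hM (1 / 32)
    ((univ : Finset (Fin n)).map Function.Embedding.some) (T := Str n a b) (by
      intro a ha'
      rw [mem_map] at ha'
      obtain ⟨i, -, rfl⟩ := ha'
      exact asks ha hpow i)
  rw [card_map, card_univ, Fintype.card_fin] at h
  push_cast at h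
  simp only [Real.logb_pow] at h
  push_cast at h
  refine arith (l := Real.logb 2 n) (L := c * Real.logb 2 n) (b := b)
    (N := ((Fintype.card (Str n a b) : ℕ) : ℝ)) (by exact_mod_cast hn)
    (by exact_mod_cast hb10) hc' hw' ?_ ?_ rfl hs0 h
  · have e1 : ((Fintype.card (Str n a b) : ℕ) : ℝ) = (n : ℝ) * 2 ^ a * b := by
      simp [Str]; ring
    rw [e1]
    have e2 : (n : ℝ) / 64 ≤ 2 ^ a := by
      have h3 : (n : ℝ) < 2 ^ (b + 1) := by exact_mod_cast hpow2
      have h4 : (2 : ℝ) ^ (b + 1) = 64 * 2 ^ a := by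
        rw [← ha, pow_add, pow_add]; ring
      linarith
    have e3 : (n : ℝ) ^ 2 * b / 64 = n * (n / 64) * b := by ring
    rw [e3]
    gcongr
  · have h1 : (n : ℝ) ≤ (2 : ℝ) ^ (b + 1) := by exact_mod_cast hpow2.le
    have h2 := Real.logb_le_logb_of_le (by norm_num : (1 : ℝ) < 2)
      (by exact_mod_cast (by omega : 0 < n)) h1
    rw [← Real.rpow_natCast, Real.logb_rpow (by norm_num) (by norm_num)] at h2
    push_cast at h2
    have hb' : (10 : ℝ) ≤ b := by exact_mod_cast hb10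
    linarith

/-- exhaustive search -/
theorem upper (n w q : ℕ) : ∃ F : Pool.Agent.Y638.RF.Fml (Option (Fin n)) (Item n) w q, F.size = 4 * n ^ 3 ∧
    ∀ x, F.accepts x = zeroTri n x := by
  obtain ⟨F, h1, h2⟩ := exists_or (w := w) (q := q) (fun p : Fin n × Fin n × Fin n =>
    Pool.Agent.Y638.RF.Fml.mul
      (.pos (.add (.item (D := Item n) (some p.1) (fun d => ((d.1 p.2.1 + d.2 p.2.2 + 1 : ℤ) : ℝ)))
        (.item (D := Item n) none (fun B => (B p.2.1 p.2.2 : ℝ)))))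
      (.pos (.add (.item (D := Item n) (some p.1) (fun d => ((1 - d.1 p.2.1 - d.2 p.2.2 : ℤ) : ℝ)))
        (.item (D := Item n) none (fun B => (-B p.2.1 p.2.2 : ℝ))))))
    (fun x p => (x (some p.1)).1 p.2.1 + x none p.2.1 p.2.2 + (x (some p.1)).2 p.2.2 = 0)
    (fun x p => by
      simp only [Pool.Agent.Y638.RF.Fml.eval]
      split_ifs <;> simp)
    (fun x p => by
      simp only [Pool.Agent.Y638.RF.Fml.eval]
      have e1 : (0 : ℝ) < (((x (some p.1)).1 p.2.1 + (x (some p.1)).2 p.2.2 + 1 : ℤ) : ℝ) +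
          (x none p.2.1 p.2.2 : ℝ) ↔ 0 ≤ (x (some p.1)).1 p.2.1 + x none p.2.1 p.2.2 +
            (x (some p.1)).2 p.2.2 := by
        rw [← Int.cast_add, Int.cast_pos]
        omega
      have e2 : (0 : ℝ) < ((1 - (x (some p.1)).1 p.2.1 - (x (some p.1)).2 p.2.2 : ℤ) : ℝ) +
          -(x none p.2.1 p.2.2 : ℝ) ↔ (x (some p.1)).1 p.2.1 + x none p.2.1 p.2.2 +
            (x (some p.1)).2 p.2.2 ≤ 0 := by
        rw [← Int.cast_neg, ← Int.cast_add, Int.cast_pos]
        omega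
      have e3 : (x (some p.1)).1 p.2.1 + x none p.2.1 p.2.2 + (x (some p.1)).2 p.2.2 = 0 ↔
          0 ≤ (x (some p.1)).1 p.2.1 + x none p.2.1 p.2.2 + (x (some p.1)).2 p.2.2 ∧
          (x (some p.1)).1 p.2.1 + x none p.2.1 p.2.2 + (x (some p.1)).2 p.2.2 ≤ 0 := by
        constructor
        · intro h
          omega
        · intro h
          omega
      rw [e3]
      simp only [e1, e2]
      split_ifs with h3 h4 h4
      · simp only [mul_one, true_iff]
        exact ⟨h3, h4⟩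
      · simp only [mul_zero, zero_ne_one, false_iff]
        exact fun h => h4 h.2
      · simp only [zero_mul, zero_ne_one, false_iff]
        exact fun h => h3 h.1
      · simp only [zero_mul, zero_ne_one, false_iff]
        exact fun h => h3 h.1)
    (zeroTri n) (fun x => by
      unfold zeroTri
      rw [decide_eq_true_iff]
      constructor
      · rintro ⟨i, k, j, h⟩
        exact ⟨(i, k, j), h⟩
      · rintro ⟨p, h⟩
        exact ⟨p.1, p.2.1, p.2.2, h⟩)
  refine ⟨F, ?_, h2⟩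
  rw [h1]
  simp only [Pool.Agent.Y638.RF.Fml.size, sum_const, card_univ, Fintype.card_prod, Fintype.card_fin, smul_eq_mul]
  ring

end Pool.Agent.Q330.RX
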