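import Pool.Agent.Y638.RF.Prog
import Pool.Agent.Y638.RF.Sum
import Pool.Agent.Y638.RF.MinPlus
import Pool.Agent.TH697.Form.ETDefs

set_option autoImplicit false

/-! # Exact triangles and real formulas -/

namespace Pool.Agent.Q330.RX

open Finset Pool.Agent.TH697.Form Pool.Agent.TH697.Row Pool.Agent.TH697.Form.ET
open Pool.Agent.Y638.RF

variable {n a b : ℕ}

/-- the string is a family of bits -/
abbrev Str (n a b : ℕ) : Type := Fin n × Fin (2 ^ a) × Fin b

/-- the word of `k`, `u` -/
def word (z : Str n a b → Bool) (k : Fin n) (u : Fin (2 ^ a)) : Fin b → Bool := fun s => z (k, u, s)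

/-- the candidates for the next bit -/
def Cand (e : (Fin b → Bool) ↪ Fin n) (s : Fin b) (w : Fin b → Bool) (j : Fin n) : Prop :=
  ∃ w' : Fin b → Bool, (∀ s', s' < s → w' s' = w s') ∧ w' s = true ∧ e w' = j

open Classical in
/-- the weights which ask for a bit -/
noncomputable def ask (e : (Fin b → Bool) ↪ Fin n) (k : Fin n) (u : Fin (2 ^ a)) (s : Fin b)
    (w : Fin b → Bool) : (Fin n → ℤ) × (Fin n → ℤ) :=
  (fun k' => if k' = k then 0 else n, fun j => if Cand e s w j then ((u : ℕ) : ℤ) + 1 else n)

open Classical in
/-- the weights which encode the string `z` -/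
noncomputable def enc (e : (Fin b → Bool) ↪ Fin n) (z : Str n a b → Bool) : ∀ i, Item n i
  | none => fun k j => if h : ∃ u, e (word z k u) = j then -(((h.choose : Fin (2 ^ a)) : ℕ) : ℤ) - 1
      else 0
  | some _ => (fun _ => n, fun _ => n)

/-- another word is the same -/
def Coll (z : Str n a b → Bool) (k : Fin n) (u : Fin (2 ^ a)) : Prop :=
  ∃ u', u' ≠ u ∧ word z k u' = word z k u

theorem enc_none (e : (Fin b → Bool) ↪ Fin n) (z : Str n a b → Bool) (i : Fin n)
    (d : (Fin n → ℤ) × (Fin n → ℤ)) :
    Function.update (enc e z : ∀ i, Item n i) (some i) d none = enc e z none :=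
  Function.update_of_ne (by simp) _ _

theorem enc_cases (e : (Fin b → Bool) ↪ Fin n) (z : Str n a b → Bool) (k j : Fin n) :
    (∃ u, e (word z k u) = j ∧ enc e z none k j = -((u : ℕ) : ℤ) - 1) ∨ enc e z none k j = 0 := by
  classical
  by_cases h : ∃ u, e (word z k u) = j
  · left
    refine ⟨h.choose, h.choose_spec, ?_⟩
    simp only [enc]
    rw [dif_pos h]
  · right
    simp only [enc]
    rw [dif_neg h]

theorem enc_word (e : (Fin b → Bool) ↪ Fin n) (z : Str n a b → Bool) (k : Fin n)
    (u : Fin (2 ^ a)) (hc : ¬ Coll z k u) :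
    enc e z none k (e (word z k u)) = -((u : ℕ) : ℤ) - 1 := by
  rcases enc_cases e z k (e (word z k u)) with ⟨u', h1, h2⟩ | h
  · have h3 : word z k u' = word z k u := e.injective h1
    have h4 : u' = u := by
      by_contra hne
      exact hc ⟨u', hne, h3⟩
    rw [h2, h4]
  · exfalso
    classical
    simp only [enc] at h
    rw [dif_pos ⟨u, rfl⟩] at h
    omega

theorem pow_le (hab : a + 5 ≤ b) (hb : 2 ^ b ≤ n) : 32 * 2 ^ a ≤ n := by
  have h1 : 2 ^ (a + 5) ≤ 2 ^ b := Nat.pow_le_pow_right (by norm_num) hab
  rw [pow_add] at h1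
  omega

theorem inRange_enc (hab : a + 5 ≤ b) (hb : 2 ^ b ≤ n) (e : (Fin b → Bool) ↪ Fin n)
    (z : Str n a b → Bool) (i : Fin n) (k : Fin n) (u : Fin (2 ^ a)) (s : Fin b)
    (w : Fin b → Bool) :
    InRange n n (Function.update (enc e z : ∀ i, Item n i) (some i) (ask e k u s w)) := by
  classical
  have hn := pow_le hab hb
  refine ⟨fun k' j => ?_, fun i' k' => ?_⟩
  · rw [enc_none]
    rcases enc_cases e z k' j with ⟨u', -, h⟩ | h
    · have := u'.2
      rw [h, abs_le]
      constructor <;> omega
    · rw [h]
      simp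
  · by_cases hi : i' = i
    · subst hi
      rw [Function.update_self]
      have := u.2
      simp only [ask]
      constructor
      · split_ifs <;> simp
      · split_ifs
        · rw [abs_le]
          constructor <;> omega
        · simp
    · rw [Function.update_of_ne (by simpa using hi)]
      simp [enc]

theorem zeroTri_le (hab : a + 5 ≤ b) (hb : 2 ^ b ≤ n) (e : (Fin b → Bool) ↪ Fin n)
    (z : Str n a b → Bool) (i : Fin n) (k : Fin n) (u : Fin (2 ^ a)) (s : Fin b)
    (h : zeroTri n (Function.update (enc e z : ∀ i, Item n i) (some i)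
      (ask e k u s (word z k u))) = true) : z (k, u, s) = true := by
  classical
  have hn := pow_le hab hb
  have hu := u.2
  unfold zeroTri at h
  rw [decide_eq_true_iff, enc_none] at h
  obtain ⟨i', k', j, h⟩ := h
  have hB : -(2 ^ a : ℕ) ≤ enc e z none k' j := by
    rcases enc_cases e z k' j with ⟨u', -, h2⟩ | h2
    · have := u'.2
      omega
    · omega
  by_cases hi : i' = i
  · subst hi
    rw [Function.update_self] at h
    simp only [ask] at h
    by_cases hk : k' = k
    · subst hk
      rw [if_pos rfl] at h
      by_cases hj : Cand e s (word z k' u) j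
      · rw [if_pos hj] at h
        rcases enc_cases e z k' j with ⟨u', h1, h2⟩ | h2
        · have h3 : u' = u := Fin.ext (by omega)
          subst h3
          obtain ⟨w', -, h4, h5⟩ := hj
          have h6 : w' = word z k' u' := e.injective (h5.trans h1.symm)
          rw [h6] at h4
          exact h4
        · omega
      · rw [if_neg hj] at h
        omega
    · rw [if_neg hk] at h
      split_ifs at h <;> omega
  · rw [Function.update_of_ne (by simpa using hi)] at h
    simp only [enc] at h hB
    omega

theorem zeroTri_ge (e : (Fin b → Bool) ↪ Fin n)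
    (z : Str n a b → Bool) (i : Fin n) (k : Fin n) (u : Fin (2 ^ a)) (s : Fin b)
    (hc : ¬ Coll z k u) (h : z (k, u, s) = true) :
    zeroTri n (Function.update (enc e z : ∀ i, Item n i) (some i)
      (ask e k u s (word z k u))) = true := by
  classical
  unfold zeroTri
  rw [decide_eq_true_iff, enc_none]
  refine ⟨i, k, e (word z k u), ?_⟩
  rw [Function.update_self, enc_word e z k u hc]
  have hC : Cand e s (word z k u) (e (word z k u)) := ⟨word z k u, fun _ _ => rfl, h, rfl⟩
  simp only [ask]
  rw [if_pos hC]
  simp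

open Classical in
theorem card_same (k : Fin n) (u u' : Fin (2 ^ a)) (hu : u' ≠ u) :
    (univ.filter fun z : Str n a b → Bool => word z k u' = word z k u).card * 2 ^ b ≤
      Fintype.card (Str n a b → Bool) := by
  have h1 : (univ : Finset (Fin b → Bool)).card = 2 ^ b := by
    rw [card_univ, Fintype.card_fun, Fintype.card_bool, Fintype.card_fin]
  rw [← h1, ← card_product, ← card_univ]
  refine card_le_card_of_injOn
    (fun p : (Str n a b → Bool) × (Fin b → Bool) => fun t : Str n a b =>
      if t.1 = k ∧ t.2.1 = u' then p.2 t.2.2 else p.1 t) (fun _ _ => mem_coe.2 (mem_univ _)) ?_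
  rintro ⟨z, w⟩ hz ⟨z', w'⟩ hz' h
  rw [mem_coe, mem_product, mem_filter] at hz hz'
  have h2 := hz.1.2
  have h3 := hz'.1.2
  simp only at h h2 h3
  have hw : w = w' := by
    funext s
    have := congrFun h (k, u', s)
    simpa using this
  have hz1 : ∀ t : Str n a b, ¬ (t.1 = k ∧ t.2.1 = u') → z t = z' t := by
    intro t ht
    have := congrFun h t
    rwa [if_neg ht, if_neg ht] at this
  refine Prod.ext ?_ hw
  funext t
  by_cases ht : t.1 = k ∧ t.2.1 = u'
  · obtain ⟨t1, t2, t3⟩ := t
    simp only at ht
    obtain ⟨rfl, rfl⟩ := ht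
    have e1 := congrFun h2 t3
    have e2 := congrFun h3 t3
    have e3 := hz1 (t1, u, t3) (by simp only; rintro ⟨-, h5⟩; exact hu h5.symm)
    unfold word at e1 e2
    simp only at e1 e2 ⊢
    rw [e1, e2, e3]
  · exact hz1 t ht

open Classical in
theorem asks (hab : a + 5 = b) (hb : 2 ^ b ≤ n) (i : Fin n) :
    Asks (Str n a b) (n ^ 4) (1 / 32) (InRange n n) (zeroTri n) (some i) := by
  have he : Nonempty ((Fin b → Bool) ↪ Fin n) := by
    rw [Function.Embedding.nonempty_iff_card_le]
    simpa using hb
  obtain ⟨e⟩ := he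
  have hn := pow_le hab.le hb
  have hbn : b ≤ n := (Nat.lt_two_pow_self).le.trans hb
  refine asks_of ((univ : Finset (Fin n × Fin (2 ^ a) × Fin b × (Fin b → Bool))).image
      (fun v => (ask e v.1 v.2.1 v.2.2.1 v.2.2.2 : Item n (some i))))
    (fun t : Str n a b => t.2.2.val) (fun t z => ask e t.1 t.2.1 t.2.2 (word z t.1 t.2.1))
    (enc e) ?_ ?_ ?_ ?_ ?_
  · refine card_image_le.trans ?_
    rw [card_univ]
    simp only [Fintype.card_prod, Fintype.card_fin, Fintype.card_fun, Fintype.card_bool]
    calc n * (2 ^ a * (b * 2 ^ b)) ≤ n * (n * (n * n)) := by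
          gcongr
          omega
      _ = n ^ 4 := by ring
  · intro t z
    exact mem_image_of_mem (fun v : Fin n × Fin (2 ^ a) × Fin b × (Fin b → Bool) =>
      (ask e v.1 v.2.1 v.2.2.1 v.2.2.2 : Item n (some i)))
      (mem_univ (t.1, t.2.1, t.2.2, word z t.1 t.2.1))
  · intro t z z' h
    have h1 : ∀ j, Cand e t.2.2 (word z t.1 t.2.1) j ↔ Cand e t.2.2 (word z' t.1 t.2.1) j := by
      intro j
      unfold Cand
      constructor
      · rintro ⟨w', h2, h3⟩
        exact ⟨w', fun s' hs' => (h2 s' hs').trans (h (t.1, t.2.1, s') hs'), h3⟩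
      · rintro ⟨w', h2, h3⟩
        exact ⟨w', fun s' hs' => (h2 s' hs').trans (h (t.1, t.2.1, s') hs').symm, h3⟩
    unfold ask
    simp only [h1]
  · exact fun t z => inRange_enc hab.le hb e z i _ _ _ _
  · have h1 : ∀ z : Str n a b → Bool, ((univ.filter (fun t : Str n a b =>
        zeroTri n (Function.update (enc e z) (some i)
          (ask e t.1 t.2.1 t.2.2 (word z t.1 t.2.1))) ≠ z t)).card : ℝ) ≤
        ∑ k : Fin n, ∑ u : Fin (2 ^ a), ∑ u' ∈ univ.filter (fun u' => u' ≠ u), ∑ s : Fin b,
          if word z k u' = word z k u then (1 : ℝ) else 0 := by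
      intro z
      rw [card_filter]
      push_cast
      rw [Fintype.sum_prod_type]
      refine sum_le_sum fun k _ => ?_
      rw [Fintype.sum_prod_type]
      refine sum_le_sum fun u _ => ?_
      rw [sum_comm]
      refine sum_le_sum fun s _ => ?_
      split_ifs with h
      · by_cases hc : Coll z k u
        · obtain ⟨u', h2, h3⟩ := hc
          refine le_trans ?_ (single_le_sum (f := fun u' => if word z k u' = word z k u then
            (1 : ℝ) else 0) (fun _ _ => by split_ifs <;> norm_num)
            (mem_filter.2 ⟨mem_univ u', h2⟩))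
          rw [if_pos h3]
        · exfalso
          apply h
          by_cases hz : z (k, u, s) = true
          · rw [hz]
            exact zeroTri_ge e z i k u s hc hz
          · by_contra hne
            apply hz
            apply zeroTri_le hab.le hb e z i k u s
            revert hne hz
            generalize zeroTri n (Function.update (enc e z) (some i)
              (ask e k u s (word z k u))) = x
            generalize z (k, u, s) = y
            cases x <;> cases y <;> simp
      · exact sum_nonneg fun _ _ => by split_ifs <;> norm_num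
    refine (sum_le_sum fun z _ => h1 z).trans ?_
    rw [sum_comm]
    have h2 : ∀ k : Fin n, ∑ z : Str n a b → Bool, ∑ u : Fin (2 ^ a),
        ∑ u' ∈ univ.filter (fun u' => u' ≠ u), ∑ s : Fin b,
          (if word z k u' = word z k u then (1 : ℝ) else 0) ≤
        (2 : ℝ) ^ a * (2 ^ a * (b * (2 ^ Fintype.card (Str n a b) / 2 ^ b))) := by
      intro k
      rw [sum_comm]
      refine (sum_le_sum (g := fun _ => (2 : ℝ) ^ a *
        (b * (2 ^ Fintype.card (Str n a b) / 2 ^ b))) fun u _ => ?_).trans ?_
      · rw [sum_comm]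
        refine (sum_le_sum (g := fun _ => (b * ((2 : ℝ) ^ Fintype.card (Str n a b) / 2 ^ b)))
          fun u' hu' => ?_).trans ?_
        · rw [sum_comm]
          rw [sum_const, card_univ, Fintype.card_fin, nsmul_eq_mul]
          apply mul_le_mul_of_nonneg_left _ (by positivity)
          rw [sum_boole, le_div_iff₀ (by positivity)]
          have h3 := card_same (b := b) k u u' (mem_filter.1 hu').2
          rw [Fintype.card_fun, Fintype.card_bool] at h3
          exact_mod_cast h3
        · rw [sum_const, nsmul_eq_mul]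
          apply mul_le_mul_of_nonneg_right _ (by positivity)
          have h4 : (univ.filter (fun u' : Fin (2 ^ a) => u' ≠ u)).card ≤ 2 ^ a :=
            (card_le_univ _).trans (by rw [Fintype.card_fin])
          exact_mod_cast h4
      · rw [sum_const, card_univ, Fintype.card_fin, nsmul_eq_mul]
        push_cast
        exact le_rfl
    refine (sum_le_sum fun k _ => h2 k).trans (le_of_eq ?_)
    rw [sum_const, card_univ, Fintype.card_fin, nsmul_eq_mul]
    have h5 : ((Fintype.card (Str n a b) : ℕ) : ℝ) = (n : ℝ) * (2 ^ a * b) := by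
      simp [Str]
    rw [h5, ← hab, pow_add]
    field_simp
    ring

end Pool.Agent.Q330.RX
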